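import Pool.Agent.Q100.CT.Stm

set_option autoImplicit false

open Set Filter Topology

namespace Pool.Agent.Q144.CT

open Pool.Agent.Q100.CT

theorem from_ : S_net → S_dist → S_cay → S_from := by
  intro Hnet Hdist Hcay θ hθ H _ S hS hcl hφ
  obtain ⟨φ, K, C, hK, hφ1, hφ2⟩ := hφ
  obtain ⟨hconG, hrd, C1, hC1, hdr⟩ := Hdist θ hθ
  obtain ⟨hcon, n, p, hp, hpd⟩ := Hcay H S hS hcl
  refine ⟨n, p.ker, inferInstance, ?_⟩
  generalize (SimpleGraph.fromRel (fun g h : H => ∃ s ∈ S, h = g * s)) = G at *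
  generalize form θ hθ = B at *
  have tri : ∀ a b c : H, (G.dist a c : ℝ) ≤ G.dist a b + G.dist b c := by
    intro a b c
    exact_mod_cast hcon.dist_triangle
  have hC : 0 ≤ C := by
    obtain ⟨a, ha⟩ := hφ2 1
    exact le_trans (Nat.cast_nonneg _) ha
  choose rnd hrnd using Hnet B
  choose pick hpick using hφ2
  choose sec hsec using hp
  obtain ⟨L, hL⟩ := exists_nat_ge (7 * K * C1 + 2 * C + 7 * K + 21 * (K * C) + 4)
  have hKC1 : 0 < K * C1 := by positivity
  have hKC : 0 ≤ K * C := by positivity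
  have hL1 : (1 : ℝ) ≤ L := by nlinarith
  have lowd : ∀ a b : PP, ((XX B).dist a b : ℝ) ≤ K * (G.dist (φ a) (φ b) + C) := by
    intro a b
    have h1 := (hφ1 a b).1
    have h2 : ((XX B).dist a b : ℝ) / K ≤ G.dist (φ a) (φ b) + C := by linarith
    rw [div_le_iff₀ hK] at h2
    linarith
  refine ⟨fun x => sec (φ (rnd x)), fun u => io (pick (p u)), L, by exact_mod_cast hL1, ?_, ?_, ?_, ?_⟩
  · intro r x y hxy
    rw [← hpd, hsec, hsec]
    have h1 : rho B (io (rnd x)) (io (rnd y)) ≤ r + 6 := by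
      have t1 := rho_tri B (io (rnd x)) x (io (rnd y))
      have t2 := rho_tri B x y (io (rnd y))
      have t3 := hrnd x
      have t4 := hrnd y
      rw [rho_comm] at t4
      linarith
    have h2 : ((XX B).dist (rnd x) (rnd y) : ℝ) ≤ C1 * (r + 6) + C1 :=
      (hdr _ _).trans (by gcongr)
    have h3 : (G.dist (φ (rnd x)) (φ (rnd y)) : ℝ) ≤ K * (C1 * (r + 6) + C1) + C :=
      ((hφ1 _ _).2).trans (by gcongr)
    have h4 : (G.dist (φ (rnd x)) (φ (rnd y)) : ℝ) ≤ L * r + L := by
      have hr : (0 : ℝ) ≤ r := Nat.cast_nonneg _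
      have h5 : K * C1 * r ≤ L * r := by
        apply mul_le_mul_of_nonneg_right _ hr
        linarith
      linarith
    exact_mod_cast h4
  · intro r u v huv
    rw [← hpd] at huv
    have h0 : (G.dist (p u) (p v) : ℝ) ≤ r := by exact_mod_cast huv
    have h1 : (G.dist (φ (pick (p u))) (φ (pick (p v))) : ℝ) ≤ r + 2 * C := by
      have t1 := tri (φ (pick (p u))) (p u) (φ (pick (p v)))
      have t2 := tri (p u) (p v) (φ (pick (p v)))
      have t3 := hpick (p u)
      have t4 := hpick (p v)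
      rw [SimpleGraph.dist_comm] at t4
      linarith
    have h2 : ((XX B).dist (pick (p u)) (pick (p v)) : ℝ) ≤ K * (r + 2 * C + C) :=
      (lowd _ _).trans (by gcongr)
    have h3 := hrd (pick (p u)) (pick (p v))
    have hr : (0 : ℝ) ≤ r := Nat.cast_nonneg _
    have h5 : 7 * K * r ≤ L * r := by
      apply mul_le_mul_of_nonneg_right _ hr
      linarith
    show rho B (io (pick (p u))) (io (pick (p v))) ≤ L * r + L
    linarith
  · intro u
    rw [← hpd, hsec]
    have h1 : ((XX B).dist (rnd (io (pick (p u)))) (pick (p u)) : ℝ) ≤ C1 * 3 + C1 :=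
      (hdr _ _).trans (by gcongr; exact hrnd _)
    have h2 : (G.dist (φ (rnd (io (pick (p u))))) (φ (pick (p u))) : ℝ) ≤ K * (C1 * 3 + C1) + C :=
      ((hφ1 _ _).2).trans (by gcongr)
    have h3 := tri (φ (rnd (io (pick (p u))))) (φ (pick (p u))) (p u)
    have h4 := hpick (p u)
    have h5 : (G.dist (φ (rnd (io (pick (p u))))) (p u) : ℝ) ≤ L := by linarith
    exact_mod_cast h5
  · intro x
    show rho B (io (pick (p (sec (φ (rnd x)))))) x ≤ L
    rw [hsec]
    have h1 := hpick (φ (rnd x))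
    have h2 : ((XX B).dist (pick (φ (rnd x))) (rnd x) : ℝ) ≤ K * (C + C) :=
      (lowd _ _).trans (by gcongr)
    have h3 := hrd (pick (φ (rnd x))) (rnd x)
    have h4 := rho_tri B (io (pick (φ (rnd x)))) (io (rnd x)) x
    have h5 := hrnd x
    linarith

end Pool.Agent.Q144.CT
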